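import Mathlib
set_option autoImplicit false

namespace Pool.Agent.Results.MP_78fef3_co.NoQuasiregular

open Finset

/-- a subgraph with at least one vertex all of whose degrees are strictly between `k` and `C k` -/
def Quasiregular {V : Type} {G : SimpleGraph V} (H : G.Subgraph) (k : ℕ) (C : ℝ) : Prop :=
  H.verts.Nonempty ∧ ∀ v ∈ H.verts, (k : ℝ) < (H.neighborSet v).ncard ∧
    ((H.neighborSet v).ncard : ℝ) < C * k

/-- Sauer's statement -/
def Sauer : Prop :=
  ∃ C : ℝ, ∀ k : ℕ, 1 ≤ k → ∃ F : ℝ, ∀ (V : Type) [Fintype V] [Nonempty V] (G : SimpleGraph V),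
    F * Fintype.card V ≤ G.edgeSet.ncard → ∃ H : G.Subgraph, Quasiregular H k C

/-! ### the random construction -/

/-- all choices of one neighbour per vertex and level -/
abbrev Om (t N : ℕ) (m : Fin t → ℕ) := (p : Fin N × Fin t) → Fin (m p.2)

/-- the vertices on the levels -/
abbrev Bv {t : ℕ} (m : Fin t → ℕ) := Σ i : Fin t, Fin (m i)

section prob

variable {t N : ℕ} {m : Fin t → ℕ}

def slice (S : Finset (Bv m)) (i : Fin t) : Finset (Fin (m i)) :=
  univ.filter fun y => (⟨i, y⟩ : Bv m) ∈ S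

lemma card_slice_le (S : Finset (Bv m)) (i : Fin t) : (slice S i).card ≤ S.card := by
  apply Finset.card_le_card_of_injOn (fun y => (⟨i, y⟩ : Bv m))
  · intro y hy
    rw [Finset.mem_coe] at hy ⊢
    exact (Finset.mem_filter.1 hy).2
  · intro y _ y' _ h
    simpa using h

def bad (P : Finset (Fin N × Fin t)) (S : Finset (Bv m)) : Finset (Om t N m) :=
  univ.filter fun f => ∀ p ∈ P, (⟨p.2, f p⟩ : Bv m) ∈ S

lemma card_bad (P : Finset (Fin N × Fin t)) (S : Finset (Bv m)) (M s : ℕ) (hM : ∀ p ∈ P, M ≤ m p.2)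
    (hs : S.card ≤ s) : (bad P S).card * M ^ P.card ≤ s ^ P.card * Fintype.card (Om t N m) := by
  classical
  have h1 : bad P S = Fintype.piFinset (fun p : Fin N × Fin t =>
      if p ∈ P then slice S p.2 else (univ : Finset (Fin (m p.2)))) := by
    ext f
    simp only [bad, Finset.mem_filter, Finset.mem_univ, true_and, Fintype.mem_piFinset]
    constructor
    · intro h p
      split_ifs with hp
      · simpa [slice] using h p hp
      · exact Finset.mem_univ _
    · intro h p hp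
      have := h p
      rw [if_pos hp] at this
      simpa [slice] using this
  have e1 : ∀ r : ℕ, r ^ P.card = ∏ p : Fin N × Fin t, if p ∈ P then r else 1 := by
    intro r
    rw [Finset.prod_ite_mem, Finset.univ_inter, Finset.prod_const]
  rw [h1, Fintype.card_piFinset, Fintype.card_pi, e1, e1, ← Finset.prod_mul_distrib,
    ← Finset.prod_mul_distrib]
  apply Finset.prod_le_prod'
  intro p _
  split_ifs with hp
  · rw [Fintype.card_fin]
    exact Nat.mul_le_mul ((card_slice_le S p.2).trans hs) (hM p hp)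
  · simp

lemma card_bad_real (P : Finset (Fin N × Fin t)) (S : Finset (Bv m)) (M s : ℕ)
    (hM : ∀ p ∈ P, M ≤ m p.2) (hM0 : 0 < M) (hs : S.card ≤ s) :
    ((bad P S).card : ℝ) ≤ ((s : ℝ) / M) ^ P.card * Fintype.card (Om t N m) := by
  have h := card_bad P S M s hM hs
  have h2 : ((bad P S).card : ℝ) * (M:ℝ) ^ P.card ≤ (s:ℝ) ^ P.card * Fintype.card (Om t N m) := by
    exact_mod_cast h
  have hMr : (0:ℝ) < (M:ℝ) ^ P.card := by positivity
  rw [div_pow, div_mul_eq_mul_div, le_div_iff₀ hMr]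
  exact h2

end prob

lemma choose_mul_pow (N a : ℕ) : ((N.choose a : ℕ) : ℝ) * (a:ℝ) ^ a ≤ (3 * N : ℝ) ^ a := by
  have h1 : ((N.choose a : ℕ) : ℝ) ≤ (N:ℝ) ^ a / (a.factorial : ℝ) := Nat.choose_le_pow_div a N
  have h2 : (a:ℝ) ^ a / (a.factorial : ℝ) ≤ Real.exp a := Real.pow_div_factorial_le_exp _ (Nat.cast_nonneg _) a
  have h3 : Real.exp a ≤ 3 ^ a := by
    rw [← Real.exp_one_rpow, Real.rpow_natCast]
    apply pow_le_pow_left₀ (Real.exp_pos 1).le
    linarith [Real.exp_one_lt_d9]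
  have hf : (0:ℝ) < (a.factorial : ℝ) := by positivity
  calc ((N.choose a : ℕ) : ℝ) * (a:ℝ) ^ a ≤ ((N:ℝ) ^ a / (a.factorial : ℝ)) * (a:ℝ) ^ a :=
        mul_le_mul_of_nonneg_right h1 (by positivity)
    _ = (N:ℝ) ^ a * ((a:ℝ) ^ a / (a.factorial : ℝ)) := by ring
    _ ≤ (N:ℝ) ^ a * 3 ^ a := mul_le_mul_of_nonneg_left (h2.trans h3) (by positivity)
    _ = (3 * N : ℝ) ^ a := by rw [mul_pow]; ring

section level

variable {t N : ℕ} {m : Fin t → ℕ}

open Classical in
/-- the choices that are bad for the level `L` -/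
noncomputable def BadL (t N : ℕ) (m : Fin t → ℕ) (Δ : ℕ) (L : Fin t) : Finset (Om t N m) :=
  ((univ : Finset (Finset (Fin N))).filter fun A => A.Nonempty ∧ A.card < t * Δ * m L).biUnion fun A =>
    (A ×ˢ (univ : Finset (Fin t))).powerset.biUnion fun P =>
      (univ : Finset (Finset (Bv m))).biUnion fun S =>
        if 3 * A.card ≤ P.card ∧ 5 * S.card ≤ P.card ∧ ∀ p ∈ P, p.2 < L then bad P S else ∅

theorem level_bound (Δ : ℕ) (L L' : Fin t) (hL' : (L' : ℕ) + 1 = L) (D' DL : ℕ)
    (hM : m L' * D' = N) (hML : m L * DL = N) (hN : 0 < N) (hmono : ∀ i : Fin t, i < L → m L' ≤ m i)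
    (hΔ : 1 ≤ Δ) (htot : ∑ i, m i ≤ N)
    (hD : (12 * (t:ℝ) ^ 4 * Δ * 2 ^ t * D' ^ 2 * 3 ^ (t * D')) ≤ DL) :
    ((BadL t N m Δ L).card : ℝ) ≤ 1 / (2 * t) * Fintype.card (Om t N m) := by
  classical
  have ht : 1 ≤ t := by have := L.2; omega
  have htr : (1:ℝ) ≤ t := by exact_mod_cast ht
  have hD'0 : 0 < D' := by
    rcases Nat.eq_zero_or_pos D' with h | h
    · rw [h, mul_zero] at hM; omega
    · exact h
  have hDL0 : 0 < DL := by
    rcases Nat.eq_zero_or_pos DL with h | h
    · rw [h, mul_zero] at hML; omega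
    · exact h
  have hM0 : 0 < m L' := by
    rcases Nat.eq_zero_or_pos (m L') with h | h
    · rw [h, zero_mul] at hM; omega
    · exact h
  have hmL0 : 0 < m L := by
    rcases Nat.eq_zero_or_pos (m L) with h | h
    · rw [h, zero_mul] at hML; omega
    · exact h
  set M := m L' with hMdef
  have hMr : (0:ℝ) < M := by exact_mod_cast hM0
  have hD'r : (1:ℝ) ≤ D' := by exact_mod_cast hD'0
  have hDLr : (0:ℝ) < DL := by exact_mod_cast hDL0
  have hmLr : (0:ℝ) < m L := by exact_mod_cast hmL0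
  have hΔr : (1:ℝ) ≤ Δ := by exact_mod_cast hΔ
  have hMN : (M:ℝ) * D' = N := by exact_mod_cast hM
  have hMLN : (m L:ℝ) * DL = N := by exact_mod_cast hML
  set W : ℝ := (Fintype.card (Om t N m) : ℝ) with hW
  have hW0 : 0 ≤ W := Nat.cast_nonneg _
  have h3pow : (1:ℝ) ≤ 3 ^ (t * D') := one_le_pow₀ (by norm_num)
  have h2pow : (1:ℝ) ≤ 2 ^ t := one_le_pow₀ (by norm_num)
  -- ratio
  have hratio : (m L : ℝ) / M = D' / DL := by
    rw [div_eq_div_iff hMr.ne' hDLr.ne', hMLN, mul_comm, hMN]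
  -- `x ≤ 1`
  have hx1 : ∀ A : Finset (Fin N), A.card < t * Δ * m L → ((t * A.card : ℕ) : ℝ) / M ≤ 1 := by
    intro A hA
    have hA' : (A.card : ℝ) ≤ t * Δ * m L := by
      have : A.card ≤ t * Δ * m L := hA.le
      exact_mod_cast this
    push_cast
    calc (t:ℝ) * (A.card : ℝ) / (M:ℝ) ≤ (t:ℝ) * ((t:ℝ) * Δ * m L) / (M:ℝ) := by gcongr
      _ = (t:ℝ) ^ 2 * Δ * ((m L : ℝ) / (M:ℝ)) := by ring
      _ = (t:ℝ) ^ 2 * Δ * ((D':ℝ) / DL) := by rw [hratio]
      _ = ((t:ℝ) ^ 2 * Δ * D') / DL := by ring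
      _ ≤ 1 := by
          rw [div_le_one hDLr]
          refine le_trans ?_ hD
          have e1 : (1:ℝ) ≤ (t:ℝ) ^ 2 := one_le_pow₀ htr
          have e2 : (0:ℝ) ≤ (t:ℝ) ^ 2 * Δ * D' := by positivity
          have e3 : (1:ℝ) ≤ 12 * (t:ℝ) ^ 2 * 2 ^ t * (D':ℝ) * 3 ^ (t * D') := by
            calc (1:ℝ) = 1 * 1 * 1 * 1 * 1 := by norm_num
              _ ≤ 12 * (t:ℝ) ^ 2 * 2 ^ t * (D':ℝ) * 3 ^ (t * D') := by
                  gcongr
                  norm_num
          calc (t:ℝ) ^ 2 * Δ * D' ≤ ((t:ℝ) ^ 2 * Δ * D') * (12 * (t:ℝ) ^ 2 * 2 ^ t * (D':ℝ) * 3 ^ (t * D')) :=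
                le_mul_of_one_le_right e2 e3
            _ = _ := by ring
  -- bound for a single triple
  have hsingle : ∀ A : Finset (Fin N), A.card < t * Δ * m L → ∀ P ∈ (A ×ˢ (univ : Finset (Fin t))).powerset,
      ∀ S : Finset (Bv m),
      (((if 3 * A.card ≤ P.card ∧ 5 * S.card ≤ P.card ∧ ∀ p ∈ P, p.2 < L then bad P S else ∅ :
        Finset (Om t N m)).card : ℕ) : ℝ) ≤
        (((t * A.card : ℕ) : ℝ) / M) ^ S.card * (((t * A.card : ℕ) : ℝ) / M) ^ (2 * A.card) * W := by
    intro A hA P hP S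
    have hx0 : 0 ≤ ((t * A.card : ℕ) : ℝ) / M := by positivity
    split_ifs with hcond
    · obtain ⟨c1, c2, c3⟩ := hcond
      have hPc : P.card ≤ t * A.card := by
        have := Finset.card_le_card (Finset.mem_powerset.1 hP)
        rw [Finset.card_product, Finset.card_univ, Fintype.card_fin] at this
        rw [mul_comm]; exact this
      refine (card_bad_real P S M (t * A.card) (fun p hp => hmono _ (c3 p hp)) hM0 (by omega)).trans ?_
      rw [← pow_add]
      apply mul_le_mul_of_nonneg_right _ hW0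
      exact pow_le_pow_of_le_one hx0 (hx1 A hA) (by omega)
    · rw [Finset.card_empty, Nat.cast_zero]
      positivity
  -- the sum over `S`
  have hsumS : ∀ x : ℝ, 0 ≤ x → ∑ S : Finset (Bv m), x ^ S.card ≤ Real.exp (x * N) := by
    intro x hx
    have e1 := Finset.sum_pow_mul_eq_add_pow x 1 (univ : Finset (Bv m))
    simp only [one_pow, mul_one, Finset.powerset_univ] at e1
    rw [e1]
    have e2 : (univ : Finset (Bv m)).card ≤ N := by
      rw [Finset.card_univ, Fintype.card_sigma]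
      simpa using htot
    calc (x + 1) ^ (univ : Finset (Bv m)).card ≤ (x + 1) ^ N := pow_le_pow_right₀ (by linarith) e2
      _ ≤ (Real.exp x) ^ N := pow_le_pow_left₀ (by linarith) (Real.add_one_le_exp x) N
      _ = Real.exp (x * N) := by rw [← Real.exp_nat_mul, mul_comm]
  set K1 : ℝ := 2 ^ t * 3 ^ (t * D') * (t ^ 3 * Δ * m L) / M ^ 2 with hK1
  have hK10 : 0 ≤ K1 := by positivity
  -- bound for a single `A`
  have hA : ∀ A : Finset (Fin N), A.card < t * Δ * m L →
      ∑ P ∈ (A ×ˢ (univ : Finset (Fin t))).powerset, ∑ S : Finset (Bv m),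
        (((t * A.card : ℕ) : ℝ) / M) ^ S.card * (((t * A.card : ℕ) : ℝ) / M) ^ (2 * A.card) * W ≤
        ((A.card : ℝ) * K1) ^ A.card * W := by
    intro A hAc
    set x : ℝ := ((t * A.card : ℕ) : ℝ) / M with hx
    have hx0 : 0 ≤ x := by positivity
    rw [Finset.sum_const, Finset.card_powerset, Finset.card_product, Finset.card_univ,
      Fintype.card_fin, nsmul_eq_mul, ← Finset.sum_mul, ← Finset.sum_mul]
    have e1 : x * N = t * A.card * D' := by
      rw [hx, ← hMN]
      push_cast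
      field_simp
    have e2 : Real.exp (x * N) ≤ (3 ^ (t * D')) ^ A.card := by
      rw [e1, ← pow_mul]
      have : (t:ℝ) * A.card * D' = ((t * D' * A.card : ℕ) : ℝ) := by push_cast; ring
      rw [this, ← Real.exp_one_rpow, Real.rpow_natCast]
      apply pow_le_pow_left₀ (Real.exp_pos 1).le
      linarith [Real.exp_one_lt_d9]
    have e3 : x ^ (2 * A.card) ≤ ((A.card : ℝ) * (t ^ 3 * Δ * m L / M ^ 2)) ^ A.card := by
      rw [pow_mul]
      apply pow_le_pow_left₀ (by positivity)
      have hA' : (A.card : ℝ) ≤ t * Δ * m L := by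
        have : A.card ≤ t * Δ * m L := hAc.le
        exact_mod_cast this
      rw [hx]
      push_cast
      have g0 : (0:ℝ) ≤ (t:ℝ) ^ 2 * A.card / (M:ℝ) ^ 2 := by positivity
      calc ((t:ℝ) * (A.card : ℝ) / (M:ℝ)) ^ 2 =
            ((t:ℝ) ^ 2 * A.card / (M:ℝ) ^ 2) * (A.card : ℝ) := by ring
        _ ≤ ((t:ℝ) ^ 2 * A.card / (M:ℝ) ^ 2) * ((t:ℝ) * Δ * m L) := mul_le_mul_of_nonneg_left hA' g0
        _ = (A.card : ℝ) * ((t:ℝ) ^ 3 * Δ * m L / (M:ℝ) ^ 2) := by ring
    have e4 : ((2 ^ (A.card * t) : ℕ) : ℝ) = (2 ^ t) ^ A.card := by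
      push_cast
      rw [mul_comm, pow_mul]
    rw [e4]
    calc ((2:ℝ) ^ t) ^ A.card * ((∑ S : Finset (Bv m), x ^ S.card) * x ^ (2 * A.card) * W)
        ≤ ((2:ℝ) ^ t) ^ A.card * (((3 ^ (t * D')) ^ A.card) *
            ((A.card : ℝ) * (t ^ 3 * Δ * m L / M ^ 2)) ^ A.card * W) := by
          apply mul_le_mul_of_nonneg_left _ (by positivity)
          apply mul_le_mul_of_nonneg_right _ hW0
          exact mul_le_mul ((hsumS x hx0).trans e2) e3 (by positivity) (by positivity)
      _ = ((A.card : ℝ) * K1) ^ A.card * W := by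
          rw [← mul_assoc, ← mul_assoc, ← mul_pow, ← mul_pow, hK1]
          congr 2
          ring
  -- total
  have hy : 3 * (N:ℝ) * K1 ≤ 1 / (4 * t) := by
    have e1 : 3 * (N:ℝ) * K1 = (3 * t ^ 3 * Δ * 2 ^ t * D' ^ 2 * 3 ^ (t * D')) / DL := by
      have : (N:ℝ) * m L / M ^ 2 = D' ^ 2 / DL := by
        calc (N:ℝ) * m L / M ^ 2 = (N / M) * (m L / M) := by ring
          _ = D' * (D' / DL) := by
              rw [hratio, ← hMN]
              congr 1
              field_simp
          _ = _ := by ring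
      calc 3 * (N:ℝ) * K1 = 3 * t ^ 3 * Δ * 2 ^ t * 3 ^ (t * D') * ((N:ℝ) * m L / M ^ 2) := by
            rw [hK1]; ring
        _ = _ := by rw [this]; ring
    rw [e1, div_le_div_iff₀ hDLr (by positivity)]
    calc (3 * (t:ℝ) ^ 3 * Δ * 2 ^ t * D' ^ 2 * 3 ^ (t * D')) * (4 * t)
        = 12 * (t:ℝ) ^ 4 * Δ * 2 ^ t * D' ^ 2 * 3 ^ (t * D') := by ring
      _ ≤ (DL:ℝ) := hD
      _ = 1 * (DL:ℝ) := (one_mul _).symm
  set y : ℝ := 3 * (N:ℝ) * K1 with hydef
  have hy0 : 0 ≤ y := by positivity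
  have hyhalf : y ≤ 1 / 4 := by
    refine hy.trans ?_
    apply one_div_le_one_div_of_le (by norm_num)
    linarith
  -- assemble
  have hchain : ((BadL t N m Δ L).card : ℝ) ≤
      ∑ A ∈ ((univ : Finset (Finset (Fin N))).filter fun A => A.Nonempty ∧ A.card < t * Δ * m L),
        ((A.card : ℝ) * K1) ^ A.card * W := by
    unfold BadL
    have c1 := Finset.card_biUnion_le (s := (univ : Finset (Finset (Fin N))).filter
      fun A => A.Nonempty ∧ A.card < t * Δ * m L) (t := fun A =>
        (A ×ˢ (univ : Finset (Fin t))).powerset.biUnion fun P =>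
          (univ : Finset (Finset (Bv m))).biUnion fun S =>
            if 3 * A.card ≤ P.card ∧ 5 * S.card ≤ P.card ∧ ∀ p ∈ P, p.2 < L then bad P S else ∅)
    refine le_trans (Nat.cast_le.2 c1) ?_
    rw [Nat.cast_sum]
    apply Finset.sum_le_sum
    intro A hAmem
    rw [Finset.mem_filter] at hAmem
    refine le_trans ?_ (hA A hAmem.2.2)
    refine le_trans (Nat.cast_le.2 Finset.card_biUnion_le) ?_
    rw [Nat.cast_sum]
    apply Finset.sum_le_sum
    intro P hP
    refine le_trans (Nat.cast_le.2 Finset.card_biUnion_le) ?_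
    rw [Nat.cast_sum]
    apply Finset.sum_le_sum
    intro S _
    exact hsingle A hAmem.2.2 P hP S
  refine hchain.trans ?_
  rw [← Finset.sum_mul]
  apply mul_le_mul_of_nonneg_right _ hW0
  calc ∑ A ∈ ((univ : Finset (Finset (Fin N))).filter fun A => A.Nonempty ∧ A.card < t * Δ * m L),
        ((A.card : ℝ) * K1) ^ A.card
      ≤ ∑ A : Finset (Fin N), (if A.card = 0 then 0 else ((A.card : ℝ) * K1) ^ A.card) := by
        refine (Finset.sum_le_sum (fun A hA => ?_)).trans
          (Finset.sum_le_sum_of_subset_of_nonneg (Finset.filter_subset _ _) (fun A _ _ => ?_))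
        · rw [Finset.mem_filter] at hA
          rw [if_neg (Finset.card_pos.2 hA.2.1).ne']
        · split_ifs
          · exact le_rfl
          · positivity
    _ = ∑ a ∈ range (N + 1), (N.choose a : ℝ) * (if a = 0 then 0 else ((a : ℝ) * K1) ^ a) := by
        have := Finset.sum_powerset_apply_card (x := (univ : Finset (Fin N)))
          (fun a : ℕ => if a = 0 then (0:ℝ) else ((a : ℝ) * K1) ^ a)
        rw [Finset.powerset_univ, Finset.card_univ, Fintype.card_fin] at this
        rw [this]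
        simp only [nsmul_eq_mul]
    _ ≤ ∑ a ∈ range (N + 1), (if a = 0 then 0 else y ^ a) := by
        apply Finset.sum_le_sum
        intro a _
        split_ifs
        · simp
        · rw [mul_pow, ← mul_assoc, hydef, mul_pow]
          exact mul_le_mul_of_nonneg_right (choose_mul_pow N a) (by positivity)
    _ ≤ y * ∑ a ∈ range N, y ^ a := by
        rw [Finset.sum_range_succ', Finset.mul_sum]
        simp only [if_true, add_zero]
        apply Finset.sum_le_sum
        intro a _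
        rw [if_neg (Nat.succ_ne_zero a), pow_succ]
        apply le_of_eq; ring
    _ ≤ y * 2 := by
        apply mul_le_mul_of_nonneg_left _ hy0
        have h2 := mul_neg_geom_sum y N
        have h3 : 0 ≤ y ^ N := by positivity
        have h4 : 0 ≤ ∑ a ∈ range N, y ^ a := Finset.sum_nonneg fun a _ => by positivity
        nlinarith
    _ ≤ 1 / (2 * t) := by
        have : 1 / (4 * (t:ℝ)) * 2 = 1 / (2 * t) := by field_simp; norm_num
        linarith

end level


/-- the level parameters -/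
def Dseq (t Δ : ℕ) : ℕ → ℕ
  | 0 => t
  | i + 1 => 12 * t ^ 4 * Δ * 2 ^ t * (Dseq t Δ i) ^ 2 * 3 ^ (t * Dseq t Δ i)

lemma Dseq_pos {t Δ : ℕ} (ht : 1 ≤ t) (hΔ : 1 ≤ Δ) (i : ℕ) : 1 ≤ Dseq t Δ i := by
  induction i with
  | zero => exact ht
  | succ i ih =>
    unfold Dseq
    have : 0 < Dseq t Δ i := ih
    exact Nat.succ_le_of_lt (by positivity)

lemma Dseq_dvd (t Δ i : ℕ) : Dseq t Δ i ∣ Dseq t Δ (i + 1) := by
  rw [Dseq]
  exact ⟨12 * t ^ 4 * Δ * 2 ^ t * Dseq t Δ i * 3 ^ (t * Dseq t Δ i), by ring⟩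

lemma Dseq_dvd_of_le (t Δ : ℕ) {i j : ℕ} (h : i ≤ j) : Dseq t Δ i ∣ Dseq t Δ j := by
  induction j, h using Nat.le_induction with
  | base => exact dvd_rfl
  | succ j _ ih => exact ih.trans (Dseq_dvd t Δ j)

/-- a good choice exists, for abstract parameters -/
lemma exists_good_aux (t Δ N : ℕ) (m : Fin t → ℕ) (D : ℕ → ℕ) (ht : 1 ≤ t) (hΔ : 1 ≤ Δ) (hNpos : 0 < N)
    (hmD : ∀ i : Fin t, m i * D i = N) (hmono : ∀ i j : Fin t, i ≤ j → m j ≤ m i)
    (htot : ∑ i, m i ≤ N)
    (hD : ∀ i : ℕ, D (i + 1) = 12 * t ^ 4 * Δ * 2 ^ t * (D i) ^ 2 * 3 ^ (t * D i)) :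
    ∃ f : Om t N m, ∀ L : Fin t, 1 ≤ (L : ℕ) → f ∉ BadL t N m Δ L := by
  classical
  have hmpos : ∀ i, 0 < m i := by
    intro i
    rcases Nat.eq_zero_or_pos (m i) with h | h
    · have := hmD i
      rw [h, zero_mul] at this
      omega
    · exact h
  by_contra hcon
  have hcon' : ∀ f : Om t N m, ∃ L : Fin t, 1 ≤ (L : ℕ) ∧ f ∈ BadL t N m Δ L := by
    intro f
    by_contra h
    apply hcon
    refine ⟨f, fun L hL hmem => h ⟨L, hL, hmem⟩⟩
  have hall : (univ : Finset (Om t N m)) ⊆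
      ((univ : Finset (Fin t)).filter fun L : Fin t => 1 ≤ (L : ℕ)).biUnion
        fun L : Fin t => BadL t N m Δ L := by
    intro f _
    obtain ⟨L, hL, hf⟩ := hcon' f
    rw [Finset.mem_biUnion]
    exact ⟨L, Finset.mem_filter.2 ⟨Finset.mem_univ _, hL⟩, hf⟩
  have h1 := (Finset.card_le_card hall).trans Finset.card_biUnion_le
  rw [Finset.card_univ] at h1
  have h2 : (Fintype.card (Om t N m) : ℝ) ≤
      ∑ L ∈ ((univ : Finset (Fin t)).filter fun L : Fin t => 1 ≤ (L : ℕ)),
        ((BadL t N m Δ L).card : ℝ) := by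
    exact_mod_cast h1
  have hW : (0:ℝ) < (Fintype.card (Om t N m) : ℝ) := by
    rw [Fintype.card_pi]
    push_cast
    apply Finset.prod_pos
    intro p _
    rw [Fintype.card_fin]
    exact_mod_cast hmpos p.2
  have h3 : ∑ L ∈ ((univ : Finset (Fin t)).filter fun L : Fin t => 1 ≤ (L : ℕ)),
      ((BadL t N m Δ L).card : ℝ) ≤
      ∑ L : Fin t, 1 / (2 * (t:ℝ)) * (Fintype.card (Om t N m) : ℝ) := by
    refine (Finset.sum_le_sum (fun L hL => ?_)).trans
      (Finset.sum_le_sum_of_subset_of_nonneg (Finset.filter_subset _ _) (fun L _ _ => by positivity))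
    rw [Finset.mem_filter] at hL
    have hL1 := hL.2
    obtain ⟨L', hL'v⟩ : ∃ L' : Fin t, (L' : ℕ) + 1 = L :=
      ⟨⟨(L : ℕ) - 1, by omega⟩, by show (L : ℕ) - 1 + 1 = L; omega⟩
    apply level_bound Δ L L' hL'v (D L') (D L) (hmD L') (hmD L) hNpos _ hΔ htot
    · rw [← hL'v, hD]
      push_cast
      exact le_rfl
    · intro i hi
      apply hmono
      rw [Fin.le_def]
      have : (i:ℕ) < L := hi
      omega
  rw [Finset.sum_const, Finset.card_univ, Fintype.card_fin, nsmul_eq_mul] at h3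
  have h4 : (t:ℝ) * (1 / (2 * (t:ℝ)) * (Fintype.card (Om t N m) : ℝ)) =
      (Fintype.card (Om t N m) : ℝ) / 2 := by
    have : (t:ℝ) ≠ 0 := by positivity
    field_simp
  linarith

theorem exists_good (t Δ : ℕ) (ht : 1 ≤ t) (hΔ : 1 ≤ Δ) :
    ∃ (N : ℕ) (m : Fin t → ℕ) (f : Om t N m), 0 < N ∧ ∑ i, m i ≤ N ∧
      ∀ L : Fin t, 1 ≤ (L : ℕ) → f ∉ BadL t N m Δ L := by
  classical
  have hNpos : 0 < Dseq t Δ t := Dseq_pos ht hΔ t
  have hmD : ∀ i : Fin t, Dseq t Δ t / Dseq t Δ i * Dseq t Δ i = Dseq t Δ t := fun i =>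
    Nat.div_mul_cancel (Dseq_dvd_of_le t Δ i.2.le)
  have hmono : ∀ i j : Fin t, i ≤ j → Dseq t Δ t / Dseq t Δ j ≤ Dseq t Δ t / Dseq t Δ i := by
    intro i j hij
    exact Nat.div_le_div_left (Nat.le_of_dvd (Dseq_pos ht hΔ j) (Dseq_dvd_of_le t Δ hij))
      (Dseq_pos ht hΔ i)
  have h0 : ∀ i : Fin t, t ≤ Dseq t Δ i := fun i =>
    Nat.le_of_dvd (Dseq_pos ht hΔ i) (Dseq_dvd_of_le t Δ (Nat.zero_le i))
  have hrec : ∀ i : ℕ, Dseq t Δ (i + 1) =
      12 * t ^ 4 * Δ * 2 ^ t * (Dseq t Δ i) ^ 2 * 3 ^ (t * Dseq t Δ i) := fun i => by rw [Dseq]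
  generalize hN : Dseq t Δ t = N at *
  obtain ⟨m, hm⟩ : ∃ m : Fin t → ℕ, ∀ i : Fin t, m i = N / Dseq t Δ i := ⟨_, fun _ => rfl⟩
  have hmD' : ∀ i : Fin t, m i * Dseq t Δ i = N := fun i => by rw [hm]; exact hmD i
  have hmono' : ∀ i j : Fin t, i ≤ j → m j ≤ m i := fun i j h => by
    rw [hm, hm]; exact hmono i j h
  have htot : ∑ i, m i ≤ N := by
    have h1 : t * ∑ i, m i ≤ t * N := by
      rw [Finset.mul_sum]
      calc ∑ i, t * m i ≤ ∑ i : Fin t, N := by
            apply Finset.sum_le_sum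
            intro i _
            calc t * m i = m i * t := mul_comm _ _
              _ ≤ m i * Dseq t Δ i := Nat.mul_le_mul_left _ (h0 i)
              _ = N := hmD' i
        _ = t * N := by rw [Finset.sum_const, Finset.card_univ, Fintype.card_fin, smul_eq_mul]
    exact Nat.le_of_mul_le_mul_left h1 ht
  obtain ⟨f, hf⟩ := exists_good_aux t Δ N m (Dseq t Δ) ht hΔ hNpos hmD' hmono' htot hrec
  exact ⟨N, m, f, hNpos, htot, hf⟩

/-- the graph of a choice -/
def gr {t N : ℕ} {m : Fin t → ℕ} (f : Om t N m) : SimpleGraph (Fin N ⊕ Bv m) where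
  Adj u v := (∃ x q, u = Sum.inl x ∧ v = Sum.inr q ∧ (⟨q.1, f (x, q.1)⟩ : Bv m) = q) ∨
    (∃ x q, v = Sum.inl x ∧ u = Sum.inr q ∧ (⟨q.1, f (x, q.1)⟩ : Bv m) = q)
  symm := ⟨fun _ _ h => h.elim Or.inr Or.inl⟩
  loopless := ⟨fun u h => by
    rcases h with ⟨x, q, h1, h2, -⟩ | ⟨x, q, h1, h2, -⟩ <;> rw [h1] at h2 <;> simp at h2⟩

theorem no_quasi {t N Δ : ℕ} {m : Fin t → ℕ} (f : Om t N m) (ht : 1 ≤ t)
    (hf : ∀ L : Fin t, 1 ≤ (L : ℕ) → f ∉ BadL t N m Δ L) (k : ℕ) (hk : 4 ≤ k) (C : ℝ)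
    (hC : C * k ≤ Δ) (H : (gr f).Subgraph) : ¬ Quasiregular H k C := by
  classical
  rintro ⟨⟨v0, hv0⟩, hdeg⟩
  let φ : Fin N × Fin t → Bv m := fun p => ⟨p.2, f p⟩
  set P : Finset (Fin N × Fin t) := univ.filter fun p => H.Adj (Sum.inl p.1) (Sum.inr (φ p)) with hP
  set A : Finset (Fin N) := univ.filter fun x => Sum.inl x ∈ H.verts with hA
  set S : Finset (Bv m) := univ.filter fun q => Sum.inr q ∈ H.verts with hS
  -- adjacency structure
  have adjl : ∀ x v, H.Adj (Sum.inl x) v → ∃ i, v = Sum.inr (φ (x, i)) ∧ (x, i) ∈ P := by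
    intro x v h
    rcases H.adj_sub h with ⟨x', q, h1, h2, h3⟩ | ⟨x', q, h1, h2, h3⟩
    · have hx := Sum.inl_injective h1
      subst hx
      subst h2
      refine ⟨q.1, ?_, ?_⟩
      · have : φ (x, q.1) = q := h3
        rw [this]
      · rw [hP, Finset.mem_filter]
        refine ⟨Finset.mem_univ _, ?_⟩
        have : φ (x, q.1) = q := h3
        rw [this]; exact h
    · simp at h2
  have adjr : ∀ q v, H.Adj (Sum.inr q) v → ∃ x, v = Sum.inl x ∧ φ (x, q.1) = q ∧ (x, q.1) ∈ P := by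
    intro q v h
    rcases H.adj_sub h with ⟨x', q', h1, h2, h3⟩ | ⟨x', q', h1, h2, h3⟩
    · simp at h1
    · have hq := Sum.inr_injective h2
      subst hq
      subst h1
      refine ⟨x', rfl, h3, ?_⟩
      rw [hP, Finset.mem_filter]
      refine ⟨Finset.mem_univ _, ?_⟩
      have : φ (x', q.1) = q := h3
      rw [this]; exact h.symm
  -- degrees
  have degl : ∀ x, (H.neighborSet (Sum.inl x)).ncard = (P.filter fun p => p.1 = x).card := by
    intro x
    have h1 : H.neighborSet (Sum.inl x) = (((P.filter fun p => p.1 = x).image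
        (fun p => (Sum.inr (φ p) : Fin N ⊕ Bv m)) : Finset (Fin N ⊕ Bv m)) : Set (Fin N ⊕ Bv m)) := by
      ext v
      rw [SimpleGraph.Subgraph.mem_neighborSet, Finset.mem_coe, Finset.mem_image]
      constructor
      · intro h
        obtain ⟨i, hi, hp⟩ := adjl x v h
        exact ⟨(x, i), by rw [Finset.mem_filter]; exact ⟨hp, rfl⟩, hi.symm⟩
      · rintro ⟨p, hp, rfl⟩
        rw [Finset.mem_filter, hP, Finset.mem_filter] at hp
        rw [← hp.2]; exact hp.1.2
    rw [h1, Set.ncard_coe_finset, Finset.card_image_of_injOn]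
    intro p hp p' hp' h
    rw [Finset.mem_coe, Finset.mem_filter] at hp hp'
    have h2 : φ p = φ p' := Sum.inr_injective h
    have h3 : p.2 = p'.2 := congrArg Sigma.fst h2
    exact Prod.ext (hp.2.trans hp'.2.symm) h3
  have degr : ∀ q, (H.neighborSet (Sum.inr q)).ncard = (P.filter fun p => φ p = q).card := by
    intro q
    have h1 : H.neighborSet (Sum.inr q) = (((P.filter fun p => φ p = q).image
        (fun p => (Sum.inl p.1 : Fin N ⊕ Bv m)) : Finset (Fin N ⊕ Bv m)) : Set (Fin N ⊕ Bv m)) := by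
      ext v
      rw [SimpleGraph.Subgraph.mem_neighborSet, Finset.mem_coe, Finset.mem_image]
      constructor
      · intro h
        obtain ⟨x, hx, hq, hp⟩ := adjr q v h
        exact ⟨(x, q.1), by rw [Finset.mem_filter]; exact ⟨hp, hq⟩, hx.symm⟩
      · rintro ⟨p, hp, rfl⟩
        rw [Finset.mem_filter, hP, Finset.mem_filter] at hp
        rw [← hp.2]; exact hp.1.2.symm
    rw [h1, Set.ncard_coe_finset, Finset.card_image_of_injOn]
    intro p hp p' hp' h
    rw [Finset.mem_coe, Finset.mem_filter] at hp hp'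
    have h2 : p.1 = p'.1 := Sum.inl_injective h
    have h3 : p.2 = p'.2 := congrArg Sigma.fst (hp.2.trans hp'.2.symm)
    exact Prod.ext h2 h3
  have dA : ∀ x ∈ A, 5 ≤ (P.filter fun p => p.1 = x).card := by
    intro x hx
    rw [hA, Finset.mem_filter] at hx
    have h1 := (hdeg _ hx.2).1
    rw [degl] at h1
    have : k < (P.filter fun p => p.1 = x).card := by exact_mod_cast h1
    omega
  have dS : ∀ q ∈ S, 5 ≤ (P.filter fun p => φ p = q).card ∧ (P.filter fun p => φ p = q).card ≤ Δ := by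
    intro q hq
    rw [hS, Finset.mem_filter] at hq
    have h1 := hdeg _ hq.2
    rw [degr] at h1
    constructor
    · have : k < (P.filter fun p => φ p = q).card := by exact_mod_cast h1.1
      omega
    · have : ((P.filter fun p => φ p = q).card : ℝ) ≤ Δ := by linarith [h1.2]
      exact_mod_cast this
  have PA : ∀ p ∈ P, p.1 ∈ A := by
    intro p hp
    rw [hP, Finset.mem_filter] at hp
    rw [hA, Finset.mem_filter]
    exact ⟨Finset.mem_univ _, H.edge_vert hp.2⟩
  have PS : ∀ p ∈ P, φ p ∈ S := by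
    intro p hp
    rw [hP, Finset.mem_filter] at hp
    rw [hS, Finset.mem_filter]
    exact ⟨Finset.mem_univ _, H.edge_vert hp.2.symm⟩
  -- sizes
  have hPA : 5 * A.card ≤ P.card := by
    rw [Finset.card_eq_sum_card_fiberwise (f := fun p : Fin N × Fin t => p.1) (t := A)
      (fun p hp => Finset.mem_coe.2 (PA p (Finset.mem_coe.1 hp))), mul_comm, ← smul_eq_mul,
      ← Finset.sum_const]
    exact Finset.sum_le_sum dA
  have hlev : ∀ (I : Finset (Fin t)), 5 * (S.filter fun q => q.1 ∈ I).card ≤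
      (P.filter fun p => p.2 ∈ I).card ∧ (P.filter fun p => p.2 ∈ I).card ≤
        Δ * (S.filter fun q => q.1 ∈ I).card := by
    intro I
    have h1 : (P.filter fun p => p.2 ∈ I).card =
        ∑ q ∈ S.filter fun q => q.1 ∈ I, (P.filter fun p => φ p = q).card := by
      rw [Finset.card_eq_sum_card_fiberwise (f := φ) (t := S.filter fun q => q.1 ∈ I)]
      · apply Finset.sum_congr rfl
        intro q hq
        rw [Finset.mem_filter] at hq
        congr 1
        ext p
        simp only [Finset.mem_filter]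
        constructor
        · rintro ⟨⟨a1, -⟩, a2⟩; exact ⟨a1, a2⟩
        · rintro ⟨a1, a2⟩
          refine ⟨⟨a1, ?_⟩, a2⟩
          have : p.2 = q.1 := congrArg Sigma.fst a2
          rw [this]; exact hq.2
      · intro p hp
        rw [Finset.mem_coe, Finset.mem_filter] at hp ⊢
        exact ⟨PS p hp.1, hp.2⟩
    rw [h1]
    constructor
    · rw [mul_comm, ← smul_eq_mul, ← Finset.sum_const]
      exact Finset.sum_le_sum fun q hq => (dS q (Finset.mem_filter.1 hq).1).1
    · rw [mul_comm, ← smul_eq_mul, ← Finset.sum_const]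
      exact Finset.sum_le_sum fun q hq => (dS q (Finset.mem_filter.1 hq).1).2
  set e : Fin t → ℕ := fun i => (P.filter fun p => p.2 = i).card with he
  have heA : ∀ i, e i ≤ A.card := by
    intro i
    apply Finset.card_le_card_of_injOn (fun p => p.1)
    · intro p hp
      rw [Finset.mem_coe, Finset.mem_filter] at hp
      exact PA p hp.1
    · intro p hp p' hp' h
      rw [Finset.mem_coe, Finset.mem_filter] at hp hp'
      exact Prod.ext h (hp.2.trans hp'.2.symm)
  have hem : ∀ i, e i ≤ Δ * m i := by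
    intro i
    have h1 := (hlev {i}).2
    simp only [Finset.mem_singleton] at h1
    refine h1.trans (Nat.mul_le_mul_left _ ?_)
    have h2 : (S.filter fun q => q.1 = i).card ≤ ((univ : Finset (Fin (m i))).image
        (fun y => (⟨i, y⟩ : Bv m))).card := by
      apply Finset.card_le_card
      intro q hq
      rw [Finset.mem_filter] at hq
      obtain ⟨j, y⟩ := q
      have : j = i := hq.2
      subst this
      exact Finset.mem_image.2 ⟨y, Finset.mem_univ _, rfl⟩
    refine h2.trans (Finset.card_image_le.trans ?_)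
    rw [Finset.card_univ, Fintype.card_fin]
  have hsum : ∀ I : Finset (Fin t), (P.filter fun p => p.2 ∈ I).card = ∑ i ∈ I, e i := by
    intro I
    rw [Finset.card_eq_sum_card_fiberwise (f := fun p : Fin N × Fin t => p.2) (t := I)]
    · apply Finset.sum_congr rfl
      intro i hi
      simp only [he]
      congr 1
      ext p
      simp only [Finset.mem_filter]
      constructor
      · rintro ⟨⟨a1, -⟩, a2⟩; exact ⟨a1, a2⟩
      · rintro ⟨a1, a2⟩; exact ⟨⟨a1, by rw [a2]; exact hi⟩, a2⟩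
    · intro p hp
      rw [Finset.mem_coe, Finset.mem_filter] at hp
      exact Finset.mem_coe.2 hp.2
  have hPtot : P.card = ∑ i, e i := by
    rw [← hsum univ]
    congr 1
    ext p
    simp
  -- `A` is nonempty
  have hApos : 0 < A.card := by
    rw [Finset.card_pos]
    rcases v0 with x | q
    · exact ⟨x, by rw [hA, Finset.mem_filter]; exact ⟨Finset.mem_univ _, hv0⟩⟩
    · have hq : q ∈ S := by rw [hS, Finset.mem_filter]; exact ⟨Finset.mem_univ _, hv0⟩
      have h1 := (dS q hq).1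
      obtain ⟨p, hp⟩ := Finset.card_pos.1 (by omega : 0 < (P.filter fun p => φ p = q).card)
      exact ⟨p.1, PA p (Finset.mem_filter.1 hp).1⟩
  have hcase : ∀ I : Finset (Fin t), (∀ i ∈ I, t * Δ * m i ≤ A.card) → ∑ i ∈ I, e i ≤ A.card := by
    intro I hI
    have h1 : t * ∑ i ∈ I, e i ≤ t * A.card := by
      rw [Finset.mul_sum]
      calc ∑ i ∈ I, t * e i ≤ ∑ i ∈ I, A.card := by
            apply Finset.sum_le_sum
            intro i hi
            calc t * e i ≤ t * (Δ * m i) := Nat.mul_le_mul_left _ (hem i)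
              _ = t * Δ * m i := by ring
              _ ≤ A.card := hI i hi
        _ = I.card * A.card := by rw [Finset.sum_const, smul_eq_mul]
        _ ≤ t * A.card := by
            apply Nat.mul_le_mul_right
            have := Finset.card_le_univ I
            rwa [Fintype.card_fin] at this
    exact Nat.le_of_mul_le_mul_left h1 ht
  set act : Finset (Fin t) := univ.filter fun i => A.card < t * Δ * m i with hact
  have hne : act.Nonempty := by
    by_contra hcon
    rw [Finset.not_nonempty_iff_eq_empty] at hcon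
    have h1 := hcase univ (fun i _ => by
      by_contra hc
      push Not at hc
      have : i ∈ act := by rw [hact, Finset.mem_filter]; exact ⟨Finset.mem_univ _, hc⟩
      rw [hcon] at this
      exact absurd this (Finset.notMem_empty _))
    rw [← hPtot] at h1
    omega
  set L := act.max' hne with hL
  have hLact : A.card < t * Δ * m L := by
    have := act.max'_mem hne
    rw [← hL, hact, Finset.mem_filter] at this
    exact this.2
  have habove : ∑ i ∈ univ.filter (fun i => L < i), e i ≤ A.card := by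
    apply hcase
    intro i hi
    rw [Finset.mem_filter] at hi
    by_contra hc
    push Not at hc
    have h1 : i ∈ act := by rw [hact, Finset.mem_filter]; exact ⟨Finset.mem_univ _, hc⟩
    have h2 := act.le_max' i h1
    rw [← hL] at h2
    exact absurd hi.2 (not_lt.2 h2)
  have hbelow : 3 * A.card ≤ ∑ i ∈ univ.filter (fun i => i < L), e i := by
    have h1 : ∑ i, e i = ∑ i ∈ univ.filter (fun i => i < L), e i + e L +
        ∑ i ∈ univ.filter (fun i => L < i), e i := by
      rw [← Finset.sum_filter_add_sum_filter_not univ (fun i => i < L)]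
      rw [add_assoc]
      congr 1
      have h2 : (univ.filter fun i => ¬ i < L) = insert L (univ.filter fun i => L < i) := by
        ext i
        simp only [Finset.mem_filter, Finset.mem_univ, true_and, Finset.mem_insert, not_lt]
        rw [le_iff_lt_or_eq, or_comm, eq_comm]
      rw [h2, Finset.sum_insert (by simp)]
    have h3 := heA L
    omega
  have hL1 : 1 ≤ (L : ℕ) := by
    by_contra hcon
    have h0 : (L : ℕ) = 0 := by omega
    have h1 : (univ.filter fun i => i < L) = (∅ : Finset (Fin t)) := by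
      rw [Finset.filter_eq_empty_iff]
      intro i _ hi
      rw [Fin.lt_def] at hi
      omega
    rw [h1, Finset.sum_empty] at hbelow
    omega
  -- the contradiction
  apply hf L hL1
  unfold BadL
  rw [Finset.mem_biUnion]
  refine ⟨A, ?_, ?_⟩
  · rw [Finset.mem_filter]
    exact ⟨Finset.mem_univ _, Finset.card_pos.1 hApos, hLact⟩
  · rw [Finset.mem_biUnion]
    refine ⟨P.filter (fun p => p.2 ∈ univ.filter (fun i => i < L)), ?_, ?_⟩
    · rw [Finset.mem_powerset]
      intro p hp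
      rw [Finset.mem_filter] at hp
      exact Finset.mem_product.2 ⟨PA p hp.1, Finset.mem_univ _⟩
    · rw [Finset.mem_biUnion]
      refine ⟨S.filter (fun q => q.1 ∈ univ.filter (fun i => i < L)), Finset.mem_univ _, ?_⟩
      rw [if_pos]
      · unfold bad
        rw [Finset.mem_filter]
        refine ⟨Finset.mem_univ _, ?_⟩
        intro p hp
        rw [Finset.mem_filter] at hp ⊢
        exact ⟨PS p hp.1, hp.2⟩
      · refine ⟨?_, (hlev _).1, ?_⟩
        · rw [hsum]; exact hbelow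
        · intro p hp
          rw [Finset.mem_filter, Finset.mem_filter] at hp
          exact (Finset.mem_filter.1 hp.2).2

lemma edges_gr {t N : ℕ} {m : Fin t → ℕ} (f : Om t N m) : N * t ≤ (gr f).edgeSet.ncard := by
  classical
  have h1 : (Set.range fun p : Fin N × Fin t =>
      s((Sum.inl p.1 : Fin N ⊕ Bv m), Sum.inr (⟨p.2, f p⟩ : Bv m))) ⊆ (gr f).edgeSet := by
    rintro e ⟨p, rfl⟩
    rw [SimpleGraph.mem_edgeSet]
    left
    exact ⟨p.1, ⟨p.2, f p⟩, rfl, rfl, rfl⟩
  have h2 : Function.Injective fun p : Fin N × Fin t =>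
      s((Sum.inl p.1 : Fin N ⊕ Bv m), Sum.inr (⟨p.2, f p⟩ : Bv m)) := by
    intro p p' h
    simp only [Sym2.eq_iff] at h
    rcases h with ⟨h3, h4⟩ | ⟨h3, -⟩
    · have h5 : p.1 = p'.1 := Sum.inl_injective h3
      have h6 : p.2 = p'.2 := congrArg Sigma.fst (Sum.inr_injective h4)
      exact Prod.ext h5 h6
    · simp at h3
  have h3 := Set.ncard_le_ncard h1 (Set.toFinite _)
  rw [← Set.image_univ, Set.ncard_image_of_injective _ h2, Set.ncard_univ, Nat.card_eq_fintype_card,
    Fintype.card_prod, Fintype.card_fin, Fintype.card_fin] at h3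
  exact h3

/-- For every `k ≥ 4` and all `C`, `F` there is a graph with at least `F n` edges and no
`(k,C)`-quasiregular subgraph; in particular Sauer's statement is false. -/
theorem result : (∀ k : ℕ, 4 ≤ k → ∀ C F : ℝ, ∃ (V : Type) (_ : Fintype V) (_ : Nonempty V)
    (G : SimpleGraph V), F * Fintype.card V ≤ G.edgeSet.ncard ∧
      ∀ H : G.Subgraph, ¬ Quasiregular H k C) ∧ ¬ Sauer := by
  have main : ∀ k : ℕ, 4 ≤ k → ∀ C F : ℝ, ∃ (V : Type) (_ : Fintype V) (_ : Nonempty V)
    (G : SimpleGraph V), F * Fintype.card V ≤ G.edgeSet.ncard ∧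
      ∀ H : G.Subgraph, ¬ Quasiregular H k C := by
    intro k hk C F
    set t := ⌈2 * F⌉₊ + 1 with ht
    set Δ := ⌈C * k⌉₊ + 1 with hΔ
    have hFt : 2 * F ≤ t := by
      have := Nat.le_ceil (2 * F)
      rw [ht]; push_cast; linarith
    have hCΔ : C * k ≤ Δ := by
      have := Nat.le_ceil (C * k)
      rw [hΔ]; push_cast; linarith
    obtain ⟨N, m, f, hN, hm, hf⟩ := exists_good t Δ (by omega) (by omega)
    refine ⟨Fin N ⊕ Bv m, inferInstance, ⟨Sum.inl ⟨0, hN⟩⟩, gr f, ?_,
      fun H => no_quasi f (by omega) hf k hk C hCΔ H⟩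
    have h1 := edges_gr f
    have h2 : Fintype.card (Fin N ⊕ Bv m) ≤ 2 * N := by
      rw [Fintype.card_sum, Fintype.card_fin, Fintype.card_sigma]
      simp only [Fintype.card_fin]
      omega
    have h3 : (Fintype.card (Fin N ⊕ Bv m) : ℝ) ≤ 2 * N := by exact_mod_cast h2
    have h4 : (N:ℝ) * t ≤ (gr f).edgeSet.ncard := by exact_mod_cast h1
    rcases le_or_gt F 0 with hF | hF
    · have : F * (Fintype.card (Fin N ⊕ Bv m) : ℝ) ≤ 0 :=
        mul_nonpos_of_nonpos_of_nonneg hF (Nat.cast_nonneg _)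
      exact this.trans (Nat.cast_nonneg _)
    · calc F * (Fintype.card (Fin N ⊕ Bv m) : ℝ) ≤ F * (2 * N) := mul_le_mul_of_nonneg_left h3 hF.le
        _ = (2 * F) * N := by ring
        _ ≤ t * N := mul_le_mul_of_nonneg_right hFt (Nat.cast_nonneg _)
        _ = N * t := by ring
        _ ≤ _ := h4
  refine ⟨main, ?_⟩
  rintro ⟨C, h⟩
  obtain ⟨F, hF⟩ := h 4 (by norm_num)
  obtain ⟨V, i1, i2, G, hG, hno⟩ := main 4 le_rfl C F
  obtain ⟨H, hH⟩ := @hF V i1 i2 G hG
  exact hno H hH

end Pool.Agent.Results.MP_78fef3_co.NoQuasiregular
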